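import Pool.Agent.Q315.PA.Uniq

/-!
# Almost all subgroups
-/

set_option autoImplicit false

namespace Pool.Agent.Q315.PA

open Module

variable {p : ℕ} [Fact p.Prime]

/-- the points `∑ x i j Q j` -/
def pts {Γ : Type} [AddCommGroup Γ] {R m : ℕ} (Q : Fin R → Γ) (x : Fin m → Fin R → ℤ) (i : Fin m) : Γ := ∑ j, x i j • Q j

/-- The subgroup of `A(ℚ)` generated by the `m` points `∑ x i j Q j`. -/
def grp {Γ : Type} [AddCommGroup Γ] {R m : ℕ} (Q : Fin R → Γ) (x : Fin m → Fin R → ℤ) : AddSubgroup Γ :=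
  AddSubgroup.closure (Set.range fun i => ∑ j, x i j • Q j)

/-- the number of the zeros of a determinant in a box -/
lemma zeros_le {R m : ℕ} (hm : 0 < m) (hR : 0 < R) (B : Matrix (Fin R) (Fin m) ℚ_[p]) (x₀ : Fin m → Fin R → ℤ)
    (h₀ : (Matrix.of (fun i j => (x₀ i j : ℚ_[p])) * B).det ≠ 0) (T : ℕ) :
    {x : Fin m → Fin R → ℤ | (∀ i j, |x i j| ≤ T) ∧ (Matrix.of (fun i j => (x i j : ℚ_[p])) * B).det = 0}.ncard ≤
      m * (2 * T + 1) ^ (m * R - 1) := by
  classical
  let e : Fin m × Fin R ≃ Fin (m * R) := finProdFinEquiv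
  let M : Matrix (Fin m) (Fin m) (MvPolynomial (Fin (m * R)) ℚ_[p]) :=
    Matrix.of fun i k => ∑ j, MvPolynomial.X (e (i, j)) * MvPolynomial.C (B j k)
  let P : MvPolynomial (Fin (m * R)) ℚ_[p] := M.det
  have heval : ∀ y : Fin (m * R) → ℚ_[p], MvPolynomial.eval y P = (Matrix.of (fun i j => y (e (i, j))) * B).det := by
    intro y
    change MvPolynomial.eval y M.det = _
    rw [RingHom.map_det]
    congr 1
    ext i k
    simp [M, Matrix.mul_apply, RingHom.mapMatrix_apply]
  let toY : (Fin m → Fin R → ℤ) → (Fin (m * R) → ℚ_[p]) := fun x k => (x (e.symm k).1 (e.symm k).2 : ℚ_[p])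
  have htoY : ∀ x, MvPolynomial.eval (toY x) P = (Matrix.of (fun i j => (x i j : ℚ_[p])) * B).det := by
    intro x
    rw [heval]
    congr 2
    ext i j
    simp [toY]
  have hP : P ≠ 0 := by
    intro h
    apply h₀
    rw [← htoY, h, map_zero]
  have hdeg : P.totalDegree ≤ m := by
    change M.det.totalDegree ≤ m
    rw [Matrix.det_apply]
    refine MvPolynomial.totalDegree_finsetSum_le fun σ _ => ?_
    refine (MvPolynomial.totalDegree_smul_le _ _).trans ?_
    refine (MvPolynomial.totalDegree_finsetProd _ _).trans ?_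
    calc ∑ i : Fin m, (M (σ i) i).totalDegree ≤ ∑ _i : Fin m, 1 := by
          apply Finset.sum_le_sum
          intro i _
          change (∑ j, MvPolynomial.X (e (σ i, j)) * MvPolynomial.C (B j i) : MvPolynomial (Fin (m * R)) ℚ_[p]).totalDegree ≤ 1
          refine MvPolynomial.totalDegree_finsetSum_le fun j _ => ?_
          refine (MvPolynomial.totalDegree_mul _ _).trans ?_
          rw [MvPolynomial.totalDegree_X, MvPolynomial.totalDegree_C]
      _ = m := by simp
  let S : Finset ℚ_[p] := (Finset.Icc (-(T : ℤ)) T).image (Int.cast : ℤ → ℚ_[p])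
  have hS : S.card = 2 * T + 1 := by
    rw [Finset.card_image_of_injective _ Int.cast_injective, Int.card_Icc]
    omega
  have hsz := MvPolynomial.schwartz_zippel_totalDegree hP S
  set Z := Finset.filter (fun f => MvPolynomial.eval f P = 0) (Fintype.piFinset fun _ : Fin (m * R) => S) with hZ
  have h1 : Z.card ≤ m * (2 * T + 1) ^ (m * R - 1) := by
    rw [hS] at hsz
    have h2 : ((2 * T + 1 : ℕ) : ℚ≥0) ≠ 0 := by positivity
    have h3 : (Z.card : ℚ≥0) ≤ (P.totalDegree : ℚ≥0) / ((2 * T + 1 : ℕ) : ℚ≥0) * ((2 * T + 1 : ℕ) : ℚ≥0) ^ (m * R) := by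
      rwa [div_le_iff₀ (by positivity)] at hsz
    have h4 : ((2 * T + 1 : ℕ) : ℚ≥0) ^ (m * R) = ((2 * T + 1 : ℕ) : ℚ≥0) ^ (m * R - 1) * ((2 * T + 1 : ℕ) : ℚ≥0) := by
      rw [← pow_succ]
      congr 1
      have := Nat.mul_pos hm hR
      omega
    have h5 : (Z.card : ℚ≥0) ≤ (P.totalDegree : ℚ≥0) * ((2 * T + 1 : ℕ) : ℚ≥0) ^ (m * R - 1) := by
      refine h3.trans (le_of_eq ?_)
      rw [h4]
      field_simp
    have h6 : Z.card ≤ P.totalDegree * (2 * T + 1) ^ (m * R - 1) := by exact_mod_cast h5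
    exact h6.trans (Nat.mul_le_mul_right _ hdeg)
  refine le_trans ?_ h1
  rw [← Set.ncard_coe_finset]
  refine Set.ncard_le_ncard_of_injOn toY ?_ ?_ (Finset.finite_toSet _)
  · rintro x ⟨hx1, hx2⟩
    rw [Finset.mem_coe, hZ, Finset.mem_filter, Fintype.mem_piFinset]
    refine ⟨fun k => ?_, by rw [htoY]; exact hx2⟩
    rw [Finset.mem_image]
    exact ⟨_, Finset.mem_Icc.2 (abs_le.1 (hx1 _ _)), rfl⟩
  · intro x _ y _ hxy
    funext i j
    have := congrFun hxy (e (i, j))
    simp only [toY, Equiv.symm_apply_apply] at this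
    exact_mod_cast this

section

set_option linter.unusedSectionVars false

variable {n : ℕ} {Γ G : Type} [AddCommGroup Γ] [AddCommGroup G] [TopologicalSpace G] [IsTopologicalAddGroup G] [CompactSpace G]
  [T2Space G] {ι : Γ →+ G} {log : G →+ (Fin n → ℚ_[p])}

/-- the span of the logarithms of the elements of a group generated by points -/
lemma lspan_closure_range {κ : Type} (P : κ → Γ) :
    lspan log ((AddSubgroup.closure (Set.range P)).map ι) = Submodule.span ℚ_[p] (Set.range fun i => log (ι (P i))) := by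
  apply le_antisymm
  · unfold lspan qspan
    rw [Submodule.span_le]
    rintro _ ⟨_, ⟨x, hx, rfl⟩, rfl⟩
    induction hx using AddSubgroup.closure_induction with
    | mem x hx =>
      obtain ⟨i, rfl⟩ := hx
      exact Submodule.subset_span ⟨i, rfl⟩
    | zero =>
      rw [map_zero, map_zero]
      exact Submodule.zero_mem _
    | add x y _ _ h1 h2 =>
      rw [map_add, map_add]
      exact Submodule.add_mem _ h1 h2
    | neg x _ h1 =>
      rw [map_neg, map_neg]
      exact Submodule.neg_mem _ h1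
  · rw [Submodule.span_le]
    rintro _ ⟨i, rfl⟩
    exact Submodule.subset_span ⟨_, ⟨_, AddSubgroup.subset_closure ⟨i, rfl⟩, rfl⟩, rfl⟩

lemma hasZpRank_grp_iff (hlog : IsLog log) {R m : ℕ} (Q : Fin R → Γ) (x : Fin m → Fin R → ℤ) :
    HasZpRank p ((grp Q x).map ι).topologicalClosure m ↔ LinearIndependent ℚ_[p] fun i => log (ι (pts Q x i)) := by
  rw [hasZpRank_closure_iff hlog, linearIndependent_iff_card_eq_finrank_span, Fintype.card_fin]
  have h : lspan log ((grp Q x).map ι) = Submodule.span ℚ_[p] (Set.range fun i => log (ι (pts Q x i))) :=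
    lspan_closure_range (pts Q x)
  rw [h]
  exact eq_comm

/-- **Zero–one law.** -/
theorem zero_one (hlog : IsLog log) {R m : ℕ} (Q : Fin R → Γ) (x₀ : Fin m → Fin R → ℤ)
    (h₀ : HasZpRank p ((grp Q x₀).map ι).topologicalClosure m) (T : ℕ) :
    {x : Fin m → Fin R → ℤ | (∀ i j, |x i j| ≤ T) ∧ ¬ HasZpRank p ((grp Q x).map ι).topologicalClosure m}.ncard ≤
      m * (2 * T + 1) ^ (m * R - 1) := by
  classical
  rw [hasZpRank_grp_iff hlog] at h₀
  rcases Nat.eq_zero_or_pos m with rfl | hm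
  · have hempty : {x : Fin 0 → Fin R → ℤ | (∀ i j, |x i j| ≤ T) ∧
        ¬ HasZpRank p ((grp Q x).map ι).topologicalClosure 0} = ∅ := by
      rw [Set.eq_empty_iff_forall_notMem]
      rintro x ⟨_, hx⟩
      apply hx
      rw [hasZpRank_grp_iff hlog]
      exact linearIndependent_empty_type
    rw [hempty, Set.ncard_empty]
    exact Nat.zero_le _
  have hR : 0 < R := by
    rcases Nat.eq_zero_or_pos R with rfl | h
    · exfalso
      have := h₀.ne_zero ⟨0, hm⟩
      apply this
      simp [pts]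
    · exact h
  -- a left inverse
  let f : (Fin m → ℚ_[p]) →ₗ[ℚ_[p]] (Fin n → ℚ_[p]) := Fintype.linearCombination ℚ_[p] (fun i => log (ι (pts Q x₀ i)))
  have hf : LinearMap.ker f = ⊥ := by
    rw [LinearMap.ker_eq_bot']
    intro c hc
    funext i
    exact Fintype.linearIndependent_iff.1 h₀ c (by simpa [f, Fintype.linearCombination_apply] using hc) i
  obtain ⟨g, hg⟩ := f.exists_leftInverse_of_injective hf
  have hgi : ∀ i, g (log (ι (pts Q x₀ i))) = Pi.single i 1 := by
    intro i
    have := congrArg (fun φ : (Fin m → ℚ_[p]) →ₗ[ℚ_[p]] (Fin m → ℚ_[p]) => φ (Pi.single i 1)) hg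
    simpa [f, Fintype.linearCombination_apply_single] using this
  let B : Matrix (Fin R) (Fin m) ℚ_[p] := Matrix.of fun j => g (log (ι (Q j)))
  have hB : ∀ (x : Fin m → Fin R → ℤ) i, (Matrix.of (fun i j => (x i j : ℚ_[p])) * B) i = g (log (ι (pts Q x i))) := by
    intro x i
    funext k
    have h1 : log (ι (pts Q x i)) = ∑ j, (x i j : ℚ_[p]) • log (ι (Q j)) := by
      simp only [pts, map_sum, map_zsmul]
      apply Finset.sum_congr rfl
      intro j _
      rw [Int.cast_smul_eq_zsmul]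
    rw [h1, map_sum, Finset.sum_apply, Matrix.mul_apply]
    apply Finset.sum_congr rfl
    intro j _
    rw [map_smul]
    rfl
  have hdet0 : (Matrix.of (fun i j => (x₀ i j : ℚ_[p])) * B).det ≠ 0 := by
    have h1 : Matrix.of (fun i j => (x₀ i j : ℚ_[p])) * B = 1 := by
      funext i
      rw [hB, hgi]
      funext k
      simp [Matrix.one_apply, Pi.single_apply, eq_comm]
    rw [h1, Matrix.det_one]
    exact one_ne_zero
  refine le_trans (Set.ncard_le_ncard ?_ ?_) (zeros_le hm hR B x₀ hdet0 T)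
  · rintro x ⟨hx1, hx2⟩
    refine ⟨hx1, ?_⟩
    by_contra hne
    apply hx2
    rw [hasZpRank_grp_iff hlog]
    have h1 : LinearIndependent ℚ_[p] (fun i => g (log (ι (pts Q x i)))) := by
      have h2 := Matrix.linearIndependent_rows_of_det_ne_zero hne
      have h3 : (fun i => g (log (ι (pts Q x i)))) = (Matrix.of (fun i j => (x i j : ℚ_[p])) * B).row := by
        funext i
        exact (hB x i).symm
      rw [h3]
      exact h2
    exact LinearIndependent.of_comp g h1
  · refine Set.Finite.subset (s := {x : Fin m → Fin R → ℤ | ∀ i j, |x i j| ≤ T}) ?_ fun x hx => hx.1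
    have h1 : {x : Fin m → Fin R → ℤ | ∀ i j, |x i j| ≤ T} =
        {x | ∀ i, x i ∈ {y : Fin R → ℤ | ∀ j, y j ∈ Set.Icc (-(T : ℤ)) T}} := by
      ext x
      simp only [Set.mem_ofPred_eq, Set.mem_Icc, abs_le]
    rw [h1]
    exact Set.Finite.pi' fun _ => Set.Finite.pi' fun _ => Set.finite_Icc _ _

end

end Pool.Agent.Q315.PA
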