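import Pool.Agent.Q315.PA.Zp

/-!
# Commutative endomorphisms and `ℚ_p`-linear independence of logarithms
-/

set_option autoImplicit false

namespace Pool.Agent.Q315.PA

open Module Polynomial

variable {p : ℕ} [Fact p.Prime]

/-- rational vectors which are independent over `ℚ` are independent over `ℚ_p` -/
lemma indep_ext {κ : Type} {m : ℕ} (v : Fin m → κ → ℚ) (hv : LinearIndependent ℚ v) (c : Fin m → ℚ_[p])
    (h : ∀ k, ∑ i, c i * ((v i k : ℚ) : ℚ_[p]) = 0) : c = 0 := by
  classical
  let B := Basis.ofVectorSpace ℚ ℚ_[p]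
  have h1 : ∀ b, ∀ i, B.repr (c i) b = 0 := by
    intro b
    have h2 : ∑ i, (B.repr (c i) b) • v i = 0 := by
      funext k
      have h3 := congrArg (fun z => B.repr z b) (h k)
      simp only [map_sum, Finsupp.coe_finsetSum, Finset.sum_apply, map_zero, Finsupp.coe_zero, Pi.zero_apply] at h3
      rw [Finset.sum_apply, Pi.zero_apply, ← h3]
      apply Finset.sum_congr rfl
      intro i _
      have h4 : c i * ((v i k : ℚ) : ℚ_[p]) = (v i k) • c i := by
        rw [Algebra.smul_def, mul_comm]
        rfl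
      rw [h4, map_smul]
      simp [mul_comm]
    exact fun i => Fintype.linearIndependent_iff.1 hv _ h2 i
  funext i
  apply B.repr.injective
  ext b
  simp [h1 b i]

/-- the matrices with entries in `ℚ_p` -/
noncomputable def toMat {n : ℕ} (M : Matrix (Fin n) (Fin n) ℚ) : Matrix (Fin n) (Fin n) ℚ_[p] := M.map (algebraMap ℚ ℚ_[p])

/-- The `p`-adic analytic subgroup theorem for the logarithm `ℓ` of a point: its coordinates are linearly independent over the field
of algebraic numbers in `ℚ_p`. -/
def AlgIndep {n : ℕ} (ℓ : Fin n → ℚ_[p]) : Prop :=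
  ∀ a : Fin n → ℚ_[p], (∀ i, IsAlgebraic ℚ (a i)) → ∑ i, a i * ℓ i = 0 → ∀ i, a i = 0

theorem key {n : ℕ} (hn : 0 < n) {F : Type} [Field F] [NumberField F] (act : F →ₐ[ℚ] Matrix (Fin n) (Fin n) ℚ)
    (ℓ : Fin n → ℚ_[p]) (hℓ : AlgIndep ℓ) {m : ℕ} (γ : Fin m → F) (hγ : LinearIndependent ℚ γ) :
    LinearIndependent ℚ_[p] fun i => (toMat (p := p) (act (γ i))).mulVec ℓ := by
  classical
  have hne : Nonempty (Fin n) := ⟨⟨0, hn⟩⟩
  have hinj : Function.Injective act := act.toRingHom.injective
  let pb := Field.powerBasisOfFiniteOfSeparable ℚ F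
  set θ := pb.gen with hθ
  -- the polynomials which represent the `γ i`
  have hg : ∀ i, ∃ g : ℚ[X], g.natDegree < pb.dim ∧ γ i = aeval θ g := fun i => pb.exists_eq_aeval (γ i)
  choose g hgd hgγ using hg
  rw [Fintype.linearIndependent_iff]
  intro c hc
  let Θ : Matrix (Fin n) (Fin n) ℚ_[p] := toMat (act θ)
  -- evaluation
  let Φ : F →+* Matrix (Fin n) (Fin n) ℚ_[p] := ((algebraMap ℚ ℚ_[p]).mapMatrix).comp act.toRingHom
  have hΦ : ∀ x, Φ x = toMat (act x) := fun x => rfl
  have heval : ∀ f : ℚ[X], aeval Θ (f.map (algebraMap ℚ ℚ_[p])) = toMat (act (aeval θ f)) := by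
    intro f
    rw [← hΦ, aeval_map_algebraMap]
    have : aeval Θ f = Φ (aeval θ f) := by
      have h1 : Θ = Φ θ := rfl
      rw [h1, aeval_def, aeval_def, hom_eval₂]
      congr 1
      exact Subsingleton.elim _ _
    exact this
  let μ : ℚ[X] := minpoly ℚ θ
  have hμm : μ.Monic := minpoly.monic (Algebra.IsIntegral.isIntegral θ)
  have hμd : μ.natDegree = pb.dim := pb.natDegree_minpoly
  let μ' : ℚ_[p][X] := μ.map (algebraMap ℚ ℚ_[p])
  have hμ'm : μ'.Monic := hμm.map _
  have hμ' : aeval Θ μ' = 0 := by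
    rw [heval, minpoly.aeval, map_zero]
    ext i j
    simp [toMat]
  let h : ℚ_[p][X] := ∑ i, C (c i) * (g i).map (algebraMap ℚ ℚ_[p])
  have hh : (aeval Θ h).mulVec ℓ = 0 := by
    have h1 : aeval Θ h = ∑ i, c i • toMat (act (γ i)) := by
      simp only [h, map_sum, map_mul, aeval_C, heval]
      apply Finset.sum_congr rfl
      intro i _
      rw [← hgγ, Algebra.smul_def]
    rw [h1, Matrix.sum_mulVec, ← hc]
    apply Finset.sum_congr rfl
    intro i _
    rw [Matrix.smul_mulVec]
  have hdeg : h.degree < pb.dim := by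
    rw [degree_lt_iff_coeff_zero]
    intro k hk
    rw [finsetSum_coeff]
    refine Finset.sum_eq_zero fun i _ => ?_
    rw [coeff_C_mul, coeff_map, coeff_eq_zero_of_natDegree_lt ((hgd i).trans_le (by exact_mod_cast hk)), map_zero, mul_zero]
  -- the powers of `θ`
  have hpow : LinearIndependent ℚ fun k : Fin pb.dim => (fun ij : Fin n × Fin n => act (θ ^ (k : ℕ)) ij.1 ij.2) := by
    have h1 : LinearIndependent ℚ fun k : Fin pb.dim => θ ^ (k : ℕ) := by
      have := pb.basis.linearIndependent
      simpa [PowerBasis.coe_basis] using this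
    rw [Fintype.linearIndependent_iff] at h1 ⊢
    intro q hq
    refine h1 q (hinj ?_)
    rw [map_sum, map_zero]
    ext i j
    have h2 := congrFun hq (i, j)
    simp only [Finset.sum_apply, Pi.smul_apply, Pi.zero_apply, smul_eq_mul] at h2
    rw [Matrix.sum_apply]
    simpa [map_smul] using h2
  -- the main step
  have hh0 : h = 0 := by
    by_contra hne0
    let d := EuclideanDomain.gcd h μ'
    have hd0 : d ≠ 0 := fun h0 => hne0 (EuclideanDomain.gcd_eq_zero_iff.1 h0).1
    let d' : ℚ_[p][X] := C d.leadingCoeff⁻¹ * d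
    have hd'm : d'.Monic := monic_C_mul_of_mul_leadingCoeff_eq_one (inv_mul_cancel₀ (leadingCoeff_ne_zero.2 hd0))
    have hd'dvd : d' ∣ μ' := by
      obtain ⟨w, hw⟩ := EuclideanDomain.gcd_dvd_right h μ'
      refine ⟨C d.leadingCoeff * w, ?_⟩
      have h1 : (C d.leadingCoeff⁻¹ * C d.leadingCoeff : ℚ_[p][X]) = 1 := by
        rw [← C_mul, inv_mul_cancel₀ (leadingCoeff_ne_zero.2 hd0), C_1]
      calc μ' = d * w := hw
        _ = (C d.leadingCoeff⁻¹ * C d.leadingCoeff) * (d * w) := by rw [h1, one_mul]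
        _ = _ := by simp only [d']; ring
    have hint : ∀ k, IsIntegral ℚ (d'.coeff k) := fun k => isIntegral_coeff_of_dvd μ d' hμm hd'm hd'dvd k
    have hd'ℓ : (aeval Θ d').mulVec ℓ = 0 := by
      have h1 : d = h * EuclideanDomain.gcdA h μ' + μ' * EuclideanDomain.gcdB h μ' := EuclideanDomain.gcd_eq_gcd_ab h μ'
      have h2 : aeval Θ d' = (aeval Θ (C d.leadingCoeff⁻¹ * EuclideanDomain.gcdA h μ')) * aeval Θ h := by
        have h3 : d' = (C d.leadingCoeff⁻¹ * EuclideanDomain.gcdA h μ') * h +
            (C d.leadingCoeff⁻¹ * EuclideanDomain.gcdB h μ') * μ' := by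
          simp only [d']
          rw [h1]
          ring
        rw [h3, map_add, map_mul, map_mul _ _ μ', hμ', mul_zero, add_zero]
      rw [h2, ← Matrix.mulVec_mulVec, hh, Matrix.mulVec_zero]
    have hd'deg : d'.natDegree < pb.dim := by
      have h1 : d'.degree ≤ h.degree := by
        refine degree_le_of_dvd ?_ hne0
        obtain ⟨w, hw⟩ := EuclideanDomain.gcd_dvd_left h μ'
        refine ⟨C d.leadingCoeff * w, ?_⟩
        have h1 : (C d.leadingCoeff⁻¹ * C d.leadingCoeff : ℚ_[p][X]) = 1 := by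
          rw [← C_mul, inv_mul_cancel₀ (leadingCoeff_ne_zero.2 hd0), C_1]
        calc h = d * w := hw
          _ = (C d.leadingCoeff⁻¹ * C d.leadingCoeff) * (d * w) := by rw [h1, one_mul]
          _ = _ := by simp only [d']; ring
      have h2 := h1.trans_lt hdeg
      rw [degree_eq_natDegree hd'm.ne_zero] at h2
      exact_mod_cast h2
    have hexp : aeval Θ d' = ∑ k : Fin pb.dim, d'.coeff k • toMat (act (θ ^ (k : ℕ))) := by
      rw [aeval_eq_sum_range' hd'deg, ← Fin.sum_univ_eq_sum_range (fun k => d'.coeff k • Θ ^ k)]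
      apply Finset.sum_congr rfl
      intro k _
      congr 1
      rw [← hΦ, map_pow]
      rfl
    have hentry : ∀ i j, (aeval Θ d') i j = ∑ k : Fin pb.dim, d'.coeff k * ((act (θ ^ (k : ℕ)) i j : ℚ) : ℚ_[p]) := by
      intro i j
      rw [hexp, Matrix.sum_apply]
      apply Finset.sum_congr rfl
      intro k _
      rw [Matrix.smul_apply, smul_eq_mul]
      rfl
    have halg : ∀ i j, IsAlgebraic ℚ ((aeval Θ d') i j) := by
      intro i j
      rw [hentry]
      refine IsIntegral.isAlgebraic (IsIntegral.sum _ fun k _ => ?_)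
      exact (hint k).mul (isIntegral_algebraMap (R := ℚ) (A := ℚ_[p]) (x := act (θ ^ (k : ℕ)) i j))
    have hzero : ∀ i j, (aeval Θ d') i j = 0 := by
      intro i
      refine hℓ (fun j => (aeval Θ d') i j) (halg i) ?_
      have := congrFun hd'ℓ i
      simpa [Matrix.mulVec, dotProduct] using this
    have hc0 : (fun k : Fin pb.dim => d'.coeff k) = 0 := by
      refine indep_ext _ hpow _ ?_
      rintro ⟨i, j⟩
      have := hzero i j
      rw [hentry] at this
      exact this
    have h5 := congrFun hc0 ⟨d'.natDegree, hd'deg⟩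
    simp only [coeff_natDegree, hd'm.leadingCoeff, Pi.zero_apply] at h5
    exact one_ne_zero h5
  -- conclusion
  have hgi : LinearIndependent ℚ fun i => (fun k : ℕ => (g i).coeff k) := by
    rw [Fintype.linearIndependent_iff] at hγ ⊢
    intro q hq
    refine hγ q ?_
    have h1 : ∑ i, C (q i) * g i = 0 := by
      ext k
      have := congrFun hq k
      simpa [finsetSum_coeff] using this
    have h2 := congrArg (aeval θ) h1
    rw [map_sum, map_zero] at h2
    rw [← h2]
    apply Finset.sum_congr rfl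
    intro i _
    rw [hgγ, map_mul, aeval_C, Algebra.smul_def]
  have hc0 : c = 0 := by
    refine indep_ext _ hgi c ?_
    intro k
    have := congrArg (fun f : ℚ_[p][X] => f.coeff k) hh0
    simpa [h, finsetSum_coeff, coeff_map] using this
  exact fun i => congrFun hc0 i

end Pool.Agent.Q315.PA
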