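import Pool.Agent.Q315.PA.Key

/-!
# Subgroups of the rational points: `ℤ_p`-rank of the closure and rank
-/

set_option autoImplicit false

namespace Pool.Agent.Q315.PA

open Module

variable {p : ℕ} [Fact p.Prime]

/-- The known properties of a simple abelian variety `A` over `ℚ` of dimension `n` with the group `Γ = A(ℚ)`, the compact group
`G = A(ℚ_p)` and the `p`-adic logarithm `log`, written in the coordinates of a basis of the tangent space over `ℚ`: the theorem of
Mordell and Weil, the `p`-adic logarithm, and the `p`-adic analytic subgroup theorem for rational points of `A` (the coordinates of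
the logarithm of a point of infinite order are linearly independent over the field of the algebraic numbers in `ℚ_p`). -/
structure IsSimple {n : ℕ} {Γ G : Type} [AddCommGroup Γ] [AddCommGroup G] [TopologicalSpace G] (ι : Γ →+ G)
    (log : G →+ (Fin n → ℚ_[p])) : Prop where
  pos : 0 < n
  mordell_weil : Module.Finite ℤ Γ
  inj : Function.Injective ι
  logarithm : IsLog log
  subgroup_theorem : ∀ P : Γ, ¬ IsOfFinAddOrder P → AlgIndep (log (ι P))

/-- `F` is a subfield of the endomorphism algebra of `A`: `act` is its action on the tangent space over `ℚ`, `O` the subring of the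
endomorphisms in `F`, and `e` the action of `O` on the rational points. -/
structure IsEndField {n : ℕ} {Γ G : Type} [AddCommGroup Γ] [AddCommGroup G] (ι : Γ →+ G)
    (log : G →+ (Fin n → ℚ_[p])) {F : Type} [Field F] [NumberField F] (act : F →ₐ[ℚ] Matrix (Fin n) (Fin n) ℚ)
    (O : Subring F) (e : O →+* AddMonoid.End Γ) : Prop where
  order : ∀ x : F, ∃ N : ℕ, N ≠ 0 ∧ (N : F) * x ∈ O
  compat : ∀ (x : O) (P : Γ), log (ι (e x P)) = (toMat (act x)).mulVec (log (ι P))

section

set_option linter.unusedSectionVars false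

variable {n : ℕ} {Γ G : Type} [AddCommGroup Γ] [AddCommGroup G] [TopologicalSpace G] [IsTopologicalAddGroup G] [CompactSpace G]
  [T2Space G] {ι : Γ →+ G} {log : G →+ (Fin n → ℚ_[p])}

include G in
lemma log_eq_zero_iff (h : IsSimple ι log) (P : Γ) : log (ι P) = 0 ↔ IsOfFinAddOrder P := by
  constructor
  · intro hP
    obtain ⟨U, hU, hinj⟩ := h.logarithm.inj
    have hUi := index_ne_zero U hU
    have h1 : U.index • ι P ∈ U := U.nsmul_index_mem _
    have h2 : log (U.index • ι P) = 0 := by rw [map_nsmul, hP, smul_zero]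
    have h3 : U.index • ι P = 0 := hinj h1 U.zero_mem (by rw [h2, map_zero])
    rw [← map_nsmul] at h3
    have h4 : U.index • P = 0 := h.inj (by rw [h3, map_zero])
    exact isOfFinAddOrder_iff_nsmul_eq_zero.2 ⟨_, Nat.pos_of_ne_zero hUi, h4⟩
  · intro hP
    obtain ⟨N, hN, h1⟩ := isOfFinAddOrder_iff_nsmul_eq_zero.1 hP
    have h2 : N • log (ι P) = 0 := by rw [← map_nsmul, ← map_nsmul, h1, map_zero, map_zero]
    rw [← Nat.cast_smul_eq_nsmul ℚ_[p]] at h2
    rcases smul_eq_zero.1 h2 with h3 | h3
    · exact absurd h3 (by exact_mod_cast hN.ne')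
    · exact h3

/-- the rank of the span of the logarithms of an independent family -/
lemma rank_of_indep (h : IsSimple ι log) (L : AddSubgroup Γ)
    (hind : ∀ P : Fin (finrank ℤ L) → L, LinearIndependent ℤ P → LinearIndependent ℚ_[p] fun i => log (ι (P i))) :
    finrank ℚ_[p] (lspan log (L.map ι)) = finrank ℤ L := by
  have hfin : Module.Finite ℤ Γ := h.mordell_weil
  have hfinL : Module.Finite ℤ L := by
    have : Module.Finite ℤ (AddSubgroup.toIntSubmodule L) := inferInstance
    exact this
  obtain ⟨P, hP⟩ := exists_linearIndependent_of_le_finrank (R := ℤ) (M := L) (le_refl (finrank ℤ L))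
  have hQ := hind P hP
  have hspan : lspan log (L.map ι) = Submodule.span ℚ_[p] (Set.range fun i => log (ι (P i))) := by
    apply le_antisymm
    · unfold lspan qspan
      rw [Submodule.span_le]
      rintro _ ⟨_, ⟨Q, hQL, rfl⟩, rfl⟩
      -- a multiple of `Q` is a combination of the `P i`
      have h1 : finrank ℤ (L ⧸ Submodule.span ℤ (Set.range P)) = 0 := by
        have h2 := Submodule.finrank_quotient_add_finrank (Submodule.span ℤ (Set.range P))
        rw [finrank_span_eq_card hP, Fintype.card_fin] at h2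
        omega
      have h3 : Module.rank ℤ (L ⧸ Submodule.span ℤ (Set.range P)) = 0 := by
        rw [← finrank_eq_rank, h1, Nat.cast_zero]
      obtain ⟨N, hN0, hN⟩ := rank_eq_zero_iff.1 h3 (Submodule.Quotient.mk ⟨Q, hQL⟩)
      rw [← Submodule.Quotient.mk_smul, Submodule.Quotient.mk_eq_zero] at hN
      obtain ⟨c, hc⟩ := (Submodule.mem_span_range_iff_exists_fun ℤ).1 hN
      have h4 : N • log (ι Q) = ∑ i, c i • log (ι (P i)) := by
        have h5 := congrArg (fun z : L => log (ι z)) hc
        simp only [AddSubgroup.coe_zsmul] at h5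
        rw [← map_zsmul, ← map_zsmul]
        rw [← h5]
        simp [map_sum, map_zsmul]
      have hN' : ((N : ℤ) : ℚ_[p]) ≠ 0 := by exact_mod_cast hN0
      have h6 : log (ι Q) = ((N : ℤ) : ℚ_[p])⁻¹ • (N • log (ι Q)) := by
        rw [← Int.cast_smul_eq_zsmul ℚ_[p], smul_smul, inv_mul_cancel₀ hN', one_smul]
      rw [h6, h4]
      refine Submodule.smul_mem _ _ (Submodule.sum_mem _ fun i _ => ?_)
      rw [← Int.cast_smul_eq_zsmul ℚ_[p]]
      exact Submodule.smul_mem _ _ (Submodule.subset_span ⟨i, rfl⟩)
    · rw [Submodule.span_le]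
      rintro _ ⟨i, rfl⟩
      exact Submodule.subset_span ⟨ι (P i), ⟨P i, (P i).2, rfl⟩, rfl⟩
  rw [hspan, finrank_span_eq_card hQ, Fintype.card_fin]

/-- the `ℤ_p`-rank of the closure is the rank if the logarithms of independent points are independent -/
theorem hasZpRank_of_indep (h : IsSimple ι log) (L : AddSubgroup Γ)
    (hind : ∀ P : Fin (finrank ℤ L) → L, LinearIndependent ℤ P → LinearIndependent ℚ_[p] fun i => log (ι (P i))) :
    HasZpRank p (L.map ι).topologicalClosure (finrank ℤ L) := by
  have h1 := closure_rank h.logarithm (L.map ι)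
  rwa [rank_of_indep h L hind] at h1

omit [CompactSpace G] [T2Space G] [IsTopologicalAddGroup G] in
lemma cast_smul_vec (q : ℚ) (v : Fin n → ℚ_[p]) : q • v = (q : ℚ_[p]) • v := by
  funext i
  simp only [Pi.smul_apply, smul_eq_mul]
  rw [Algebra.smul_def]
  rfl

/-- independent points have logarithms which are independent over `ℚ` -/
lemma indep_rat (h : IsSimple ι log) {L : AddSubgroup Γ} {m : ℕ} (P : Fin m → L) (hP : LinearIndependent ℤ P) :
    LinearIndependent ℚ fun i => log (ι (P i)) := by
  refine (LinearIndependent.iff_fractionRing ℤ ℚ).1 ?_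
  rw [Fintype.linearIndependent_iff] at hP ⊢
  intro a ha
  have h1 : log (ι ((∑ i, a i • P i : L) : Γ)) = 0 := by
    rw [← ha]
    simp [map_sum, map_zsmul]
  obtain ⟨M, hM, h3⟩ := isOfFinAddOrder_iff_nsmul_eq_zero.1 ((log_eq_zero_iff h _).1 h1)
  have h4 : ∑ i, ((M : ℤ) * a i) • P i = 0 := by
    simp only [mul_smul]
    rw [← Finset.smul_sum]
    apply Subtype.ext
    rw [AddSubgroup.coe_zsmul, natCast_zsmul, h3]
    rfl
  intro i
  have h5 := hP _ h4 i
  rcases mul_eq_zero.1 h5 with h6 | h6
  · exact absurd h6 (by exact_mod_cast hM.ne')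
  · exact h6

variable {F : Type} [Field F] [NumberField F] {act : F →ₐ[ℚ] Matrix (Fin n) (Fin n) ℚ} {O : Subring F}
  {e : O →+* AddMonoid.End Γ}

omit [CompactSpace G] [T2Space G] [IsTopologicalAddGroup G] [TopologicalSpace G] in
/-- the logarithm of `x / N` times a point -/
lemma log_div (hF : IsEndField ι log act O e) {P P₀ : Γ} {N : ℕ} (hN : N ≠ 0) {x : O} (hx : N • P = e x P₀) :
    log (ι P) = (toMat (act ((N : F)⁻¹ * (x : F)))).mulVec (log (ι P₀)) := by
  have h1 : (N : ℚ_[p]) • log (ι P) = (toMat (act x)).mulVec (log (ι P₀)) := by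
    rw [← hF.compat, ← hx, map_nsmul, map_nsmul, Nat.cast_smul_eq_nsmul]
  have hNF : (N : F) ≠ 0 := by exact_mod_cast hN
  have hNp : (N : ℚ_[p]) ≠ 0 := by exact_mod_cast hN
  have h2 : toMat (p := p) (act x) = (N : ℚ_[p]) • toMat (act ((N : F)⁻¹ * (x : F))) := by
    have h3 : (x : F) = (N : ℚ) • ((N : F)⁻¹ * (x : F)) := by
      rw [Algebra.smul_def, ← mul_assoc]
      simp [hNF]
    generalize (N : F)⁻¹ * (x : F) = y at h3
    rw [h3, map_smul]
    ext i j
    simp [toMat]
  rw [h2, Matrix.smul_mulVec] at h1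
  exact smul_right_injective _ hNp h1

/-- **Subgroups of `F · P₀`.** -/
theorem rankOne (h : IsSimple ι log) (hF : IsEndField ι log act O e) (L : AddSubgroup Γ) (P₀ : Γ)
    (hL : ∀ P ∈ L, ∃ N : ℕ, N ≠ 0 ∧ ∃ x : O, N • P = e x P₀) :
    HasZpRank p (L.map ι).topologicalClosure (finrank ℤ L) := by
  refine hasZpRank_of_indep h L fun P hP => ?_
  choose N hN x hx using fun i => hL (P i) (P i).2
  let γ : Fin (finrank ℤ L) → F := fun i => (N i : F)⁻¹ * (x i : F)
  have hlog : ∀ i, log (ι (P i)) = (toMat (act (γ i))).mulVec (log (ι P₀)) := fun i => log_div hF (hN i) (hx i)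
  have hind := indep_rat h P hP
  by_cases hfin : IsOfFinAddOrder P₀
  · have h0 : log (ι P₀) = 0 := (log_eq_zero_iff h P₀).2 hfin
    have hempty : IsEmpty (Fin (finrank ℤ L)) := by
      by_contra hne
      rw [not_isEmpty_iff] at hne
      obtain ⟨i⟩ := hne
      have h1 := hind.ne_zero i
      rw [hlog, h0, Matrix.mulVec_zero] at h1
      exact h1 rfl
    exact linearIndependent_empty_type
  · have hℓ := h.subgroup_theorem P₀ hfin
    have hγ : LinearIndependent ℚ γ := by
      rw [Fintype.linearIndependent_iff] at hind ⊢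
      intro q hq
      refine hind q ?_
      have h1 : (toMat (p := p) (act (∑ i, q i • γ i))).mulVec (log (ι P₀)) = ∑ i, q i • log (ι (P i)) := by
        have h2 : toMat (p := p) (act (∑ i, q i • γ i)) = ∑ i, (q i : ℚ_[p]) • toMat (act (γ i)) := by
          rw [map_sum]
          ext a b
          simp [toMat, Matrix.sum_apply, map_smul]
        rw [h2, Matrix.sum_mulVec]
        apply Finset.sum_congr rfl
        intro i _
        rw [Matrix.smul_mulVec, ← hlog, cast_smul_vec]
      rw [← h1, hq, map_zero]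
      have h3 : toMat (p := p) (0 : Matrix (Fin n) (Fin n) ℚ) = 0 := by
        ext a b
        simp [toMat]
      rw [h3, Matrix.zero_mulVec]
    have := key h.pos act _ hℓ γ hγ
    simpa only [hlog] using this

end

end Pool.Agent.Q315.PA
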