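import Pool.Agent.Q315.PA.Rank

/-!
# Uniqueness of the `ℤ_p`-rank and the group generated by points
-/

set_option autoImplicit false

namespace Pool.Agent.Q315.PA

open Module

variable {p : ℕ} [Fact p.Prime]

section

set_option linter.unusedSectionVars false

variable {n : ℕ} {G : Type} [AddCommGroup G] [TopologicalSpace G] [IsTopologicalAddGroup G] [CompactSpace G]
  [T2Space G] {log : G →+ (Fin n → ℚ_[p])}

/-- a continuous additive map `ℤ_p ^ d → ℚ_p ^ n` is `ℤ_p`-linear -/
lemma linear_of_continuous {d : ℕ} (f : (Fin d → ℤ_[p]) →+ (Fin n → ℚ_[p])) (hf : Continuous f) (z : ℤ_[p]) (x : Fin d → ℤ_[p]) :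
    f (z • x) = z • f x := by
  have h1 : Continuous fun z : ℤ_[p] => f (z • x) := hf.comp (continuous_id.smul continuous_const)
  have h2 : Continuous fun z : ℤ_[p] => z • f x := by
    refine continuous_pi fun i => ?_
    change Continuous fun z : ℤ_[p] => (z : ℚ_[p]) * f x i
    exact (continuous_subtype_val).mul continuous_const
  have h3 : (fun z : ℤ_[p] => f (z • x)) = fun z : ℤ_[p] => z • f x := by
    refine (PadicInt.denseRange_intCast (p := p)).equalizer h1 h2 ?_
    funext k
    simp only [Function.comp]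
    rw [Int.cast_smul_eq_zsmul, Int.cast_smul_eq_zsmul, map_zsmul]
  exact congrFun h3 z

lemma lspan_relIndex {V S : AddSubgroup G} (hVS : V ≤ S) (h : V.relIndex S ≠ 0) : lspan log V = lspan log S := by
  apply le_antisymm (lspan_mono hVS)
  unfold lspan qspan
  rw [Submodule.span_le]
  rintro _ ⟨x, hx, rfl⟩
  have h1 : V.relIndex S • x ∈ V := by
    have := (V.addSubgroupOf S).nsmul_index_mem ⟨x, hx⟩
    exact this
  have h2 : ((V.relIndex S : ℕ) : ℚ_[p]) ≠ 0 := by exact_mod_cast h
  have h3 : log x = ((V.relIndex S : ℕ) : ℚ_[p])⁻¹ • log (V.relIndex S • x) := by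
    rw [map_nsmul, ← Nat.cast_smul_eq_nsmul ℚ_[p], smul_smul, inv_mul_cancel₀ h2, one_smul]
  rw [h3]
  exact Submodule.smul_mem _ _ (Submodule.subset_span ⟨_, h1, rfl⟩)

/-- **Uniqueness of the `ℤ_p`-rank.** -/
theorem uniq (hlog : IsLog log) {S : AddSubgroup G} {d : ℕ} (h : HasZpRank p S d) : finrank ℚ_[p] (lspan log S) = d := by
  obtain ⟨V, hVS, hi, _, ⟨φ⟩⟩ := h
  rw [← lspan_relIndex hVS hi]
  let f : (Fin d → ℤ_[p]) →+ (Fin n → ℚ_[p]) := (log.comp V.subtype).comp φ.symm.toAddMonoidHom
  have hfa : ∀ x, f x = log (φ.symm x : V) := fun x => rfl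
  have hf : Continuous f := by
    have h1 : Continuous fun x => log ((φ.symm x : V) : G) := hlog.cont.comp (continuous_subtype_val.comp φ.symm.continuous)
    exact h1
  let g : (Fin d → ℤ_[p]) →ₗ[ℤ_[p]] (Fin n → ℚ_[p]) :=
    { toFun := f
      map_add' := f.map_add
      map_smul' := fun z x => linear_of_continuous f hf z x }
  have hg : Function.Injective g := by
    rw [← LinearMap.ker_eq_bot, LinearMap.ker_eq_bot']
    intro x hx
    have h1 : log ((φ.symm x : V) : G) = 0 := hx
    obtain ⟨U, hU, hinj⟩ := hlog.inj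
    have hUi := index_ne_zero U hU
    have h2 : U.index • ((φ.symm x : V) : G) = 0 := by
      refine hinj (U.nsmul_index_mem _) U.zero_mem ?_
      rw [map_nsmul, h1, smul_zero, map_zero]
    have h3 : U.index • (φ.symm x) = 0 := Subtype.ext (by simpa using h2)
    have h4 : U.index • x = 0 := by
      have := congrArg φ h3
      rw [map_nsmul, map_zero] at this
      simpa using this
    rw [← Nat.cast_smul_eq_nsmul ℤ_[p]] at h4
    rcases smul_eq_zero.1 h4 with h5 | h5
    · exact absurd h5 (by exact_mod_cast hUi)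
    · exact h5
  have hli : LinearIndependent ℚ_[p] (fun i : Fin d => g (Pi.single i 1)) := by
    have h1 : LinearIndependent ℤ_[p] (fun i : Fin d => g (Pi.single i 1)) := by
      have h2 : LinearIndependent ℤ_[p] (fun i : Fin d => (Pi.single i 1 : Fin d → ℤ_[p])) := by
        have := (Pi.basisFun ℤ_[p] (Fin d)).linearIndependent
        convert this using 1
        funext i
        simp
      exact h2.map' g (LinearMap.ker_eq_bot.2 hg)
    exact (LinearIndependent.iff_fractionRing ℤ_[p] ℚ_[p]).1 h1
  have hspan : lspan log V = Submodule.span ℚ_[p] (Set.range fun i : Fin d => g (Pi.single i 1)) := by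
    apply le_antisymm
    · unfold lspan qspan
      rw [Submodule.span_le]
      rintro _ ⟨x, hx, rfl⟩
      have h1 : log x = g (φ ⟨x, hx⟩) := by
        change log x = log ((φ.symm (φ ⟨x, hx⟩) : V) : G)
        simp
      have h2 : φ ⟨x, hx⟩ = ∑ i, (φ ⟨x, hx⟩ i) • (Pi.single i 1 : Fin d → ℤ_[p]) := by
        rw [pi_eq_sum_univ (φ ⟨x, hx⟩)]
        apply Finset.sum_congr rfl
        intro i _
        congr 1
        · simp
        · funext j
          simp [Pi.single_apply, eq_comm]
      rw [h1, h2, map_sum]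
      refine Submodule.sum_mem _ fun i _ => ?_
      rw [map_smul]
      have h4 : (φ ⟨x, hx⟩ i) • g (Pi.single i 1) = ((φ ⟨x, hx⟩ i : ℤ_[p]) : ℚ_[p]) • g (Pi.single i 1) := rfl
      rw [h4]
      exact Submodule.smul_mem _ _ (Submodule.subset_span ⟨i, rfl⟩)
    · rw [Submodule.span_le]
      rintro _ ⟨i, rfl⟩
      exact Submodule.subset_span ⟨((φ.symm (Pi.single i 1) : V) : G), (φ.symm (Pi.single i 1)).2, rfl⟩
  rw [hspan, finrank_span_eq_card hli, Fintype.card_fin]

/-- **The `ℤ_p`-rank of the closure.** -/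
theorem hasZpRank_closure_iff (hlog : IsLog log) (S : AddSubgroup G) (d : ℕ) :
    HasZpRank p S.topologicalClosure d ↔ finrank ℚ_[p] (lspan log S) = d := by
  constructor
  · intro h
    rw [← uniq hlog h, lspan_closure hlog]
  · rintro rfl
    exact closure_rank hlog S

end

end Pool.Agent.Q315.PA
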