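import Mathlib

/-!
# `ℤ_p`-ranks of compact groups with a logarithm
-/

set_option autoImplicit false

namespace Pool.Agent.Q315.PA

open Module

variable {p : ℕ} [Fact p.Prime]

/-- The subgroup `S` has `ℤ_p`-rank `d`: it is isomorphic to `ℤ_p ^ d` modulo finite torsion, that is, an open subgroup `V` of
finite index of `S` is isomorphic to `ℤ_p ^ d` as a topological group. -/
def HasZpRank (p : ℕ) [Fact p.Prime] {G : Type} [AddCommGroup G] [TopologicalSpace G] (S : AddSubgroup G) (d : ℕ) : Prop :=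
  ∃ V : AddSubgroup G, V ≤ S ∧ V.relIndex S ≠ 0 ∧ IsOpen {x : S | (x : G) ∈ V} ∧ Nonempty (V ≃ₜ+ (Fin d → ℤ_[p]))

section Lattice

variable {n : ℕ}

lemma smul_mem_of_closed (B : AddSubgroup (Fin n → ℚ_[p])) (hB : IsClosed (B : Set (Fin n → ℚ_[p]))) (z : ℤ_[p])
    (b : Fin n → ℚ_[p]) (hb : b ∈ B) : z • b ∈ B := by
  have hc : Continuous fun z : ℤ_[p] => z • b := by
    refine continuous_pi fun i => ?_
    simp only [Pi.smul_apply]
    change Continuous fun z : ℤ_[p] => (z : ℚ_[p]) * b i
    exact (continuous_subtype_val).mul continuous_const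
  have h1 : IsClosed {z : ℤ_[p] | z • b ∈ B} := hB.preimage hc
  have h2 : Set.range (Int.cast : ℤ → ℤ_[p]) ⊆ {z : ℤ_[p] | z • b ∈ B} := by
    rintro _ ⟨k, rfl⟩
    change ((k : ℤ_[p]) • b) ∈ B
    rw [Int.cast_smul_eq_zsmul]
    exact B.zsmul_mem hb k
  have h3 := closure_minimal h2 h1
  rw [(PadicInt.denseRange_intCast (p := p)).closure_range] at h3
  exact h3 (Set.mem_univ z)

/-- a closed subgroup as a `ℤ_p`-submodule -/
def toSub (B : AddSubgroup (Fin n → ℚ_[p])) (hB : IsClosed (B : Set (Fin n → ℚ_[p]))) : Submodule ℤ_[p] (Fin n → ℚ_[p]) where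
  carrier := B
  add_mem' := B.add_mem
  zero_mem' := B.zero_mem
  smul_mem' z b hb := smul_mem_of_closed B hB z b hb

lemma fg_of_compact (B : AddSubgroup (Fin n → ℚ_[p])) (hB : IsCompact (B : Set (Fin n → ℚ_[p]))) :
    (toSub B hB.isClosed).FG := by
  obtain ⟨R, hR⟩ := hB.isBounded.exists_norm_le
  obtain ⟨k, hk⟩ : ∃ k : ℕ, R ≤ (p : ℝ) ^ k := by
    have hp : (1 : ℝ) < p := by exact_mod_cast (Fact.out : p.Prime).one_lt
    obtain ⟨k, hk⟩ := pow_unbounded_of_one_lt R hp
    exact ⟨k, hk.le⟩
  have hp0 : (p : ℚ_[p]) ≠ 0 := by exact_mod_cast (Fact.out : p.Prime).ne_zero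
  -- the lattice
  let f : (Fin n → ℤ_[p]) →ₗ[ℤ_[p]] (Fin n → ℚ_[p]) :=
    { toFun := fun x i => (p : ℚ_[p]) ^ (-(k : ℤ)) * (x i : ℚ_[p])
      map_add' := fun x y => by
        funext i
        simp only [Pi.add_apply, PadicInt.coe_add]
        ring
      map_smul' := fun z x => by
        funext i
        simp only [Pi.smul_apply, smul_eq_mul, PadicInt.coe_mul, RingHom.id_apply]
        change _ = (z : ℚ_[p]) * _
        ring }
  have h1 : toSub B hB.isClosed ≤ LinearMap.range f := by
    intro b hb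
    have h2 : ∀ i, ‖(p : ℚ_[p]) ^ (k : ℤ) * b i‖ ≤ 1 := by
      intro i
      have h3 : ‖b i‖ ≤ (p : ℝ) ^ k := (norm_le_pi_norm b i).trans ((hR b hb).trans hk)
      rw [norm_mul, Padic.norm_p_zpow]
      calc (p : ℝ) ^ (-(k : ℤ)) * ‖b i‖ ≤ (p : ℝ) ^ (-(k : ℤ)) * (p : ℝ) ^ k := by gcongr
        _ = 1 := by
          rw [zpow_neg, zpow_natCast]
          exact inv_mul_cancel₀ (pow_ne_zero _ (by exact_mod_cast (Fact.out : p.Prime).ne_zero))
    refine ⟨fun i => ⟨_, h2 i⟩, ?_⟩
    funext i
    change (p : ℚ_[p]) ^ (-(k : ℤ)) * ((p : ℚ_[p]) ^ (k : ℤ) * b i) = b i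
    rw [← mul_assoc, ← zpow_add₀ hp0]
    simp
  have h4 : (LinearMap.range f).FG := by
    rw [LinearMap.range_eq_map]
    exact Submodule.FG.map f (IsNoetherian.noetherian _)
  have h5 : IsNoetherian ℤ_[p] (LinearMap.range f) := isNoetherian_of_fg_of_noetherian _ h4
  exact isNoetherian_submodule.1 h5 _ h1

/-- the `ℚ_p`-span of a subgroup -/
noncomputable def qspan (B : AddSubgroup (Fin n → ℚ_[p])) : Submodule ℚ_[p] (Fin n → ℚ_[p]) := Submodule.span ℚ_[p] (B : Set (Fin n → ℚ_[p]))

/-- A compact subgroup of `ℚ_p ^ n` is isomorphic to `ℤ_p ^ d`, where `d` is the dimension of its span. -/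
lemma lattice (B : AddSubgroup (Fin n → ℚ_[p])) (hB : IsCompact (B : Set (Fin n → ℚ_[p]))) :
    Nonempty (B ≃ₜ+ (Fin (finrank ℚ_[p] (qspan B)) → ℤ_[p])) := by
  set M := toSub B hB.isClosed with hM
  have hfg : Module.Finite ℤ_[p] M := Module.Finite.iff_fg.2 (fg_of_compact B hB)
  have htf : Module.IsTorsionFree ℤ_[p] (Fin n → ℚ_[p]) := inferInstance
  have htf2 : Module.IsTorsionFree ℤ_[p] M := inferInstance
  have hfree : Module.Free ℤ_[p] M := inferInstance
  let b := Module.finBasis ℤ_[p] M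
  have hli : LinearIndependent ℚ_[p] (fun i => ((b i : M) : Fin n → ℚ_[p])) := by
    have h1 : LinearIndependent ℤ_[p] (fun i => ((b i : M) : Fin n → ℚ_[p])) :=
      b.linearIndependent.map' M.subtype (Submodule.ker_subtype M)
    exact (LinearIndependent.iff_fractionRing ℤ_[p] ℚ_[p]).1 h1
  have hspan : Submodule.span ℚ_[p] (Set.range fun i => ((b i : M) : Fin n → ℚ_[p])) = qspan B := by
    apply le_antisymm
    · rw [Submodule.span_le]
      rintro _ ⟨i, rfl⟩
      exact Submodule.subset_span (b i).2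
    · unfold qspan
      rw [Submodule.span_le]
      intro x hx
      have h2 := b.sum_repr ⟨x, hx⟩
      have h3 := congrArg (fun y : M => (y : Fin n → ℚ_[p])) h2
      simp only [Submodule.coe_sum, Submodule.coe_smul] at h3
      rw [← h3]
      refine Submodule.sum_mem _ fun i _ => ?_
      have h4 : (b.repr ⟨x, hx⟩ i) • ((b i : M) : Fin n → ℚ_[p]) = ((b.repr ⟨x, hx⟩ i : ℤ_[p]) : ℚ_[p]) • ((b i : M) : Fin n → ℚ_[p]) := rfl
      rw [h4]
      exact Submodule.smul_mem _ _ (Submodule.subset_span ⟨i, rfl⟩)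
  have hrank : finrank ℚ_[p] (qspan B) = finrank ℤ_[p] M := by
    rw [← hspan, finrank_span_eq_card hli, Fintype.card_fin]
  rw [hrank]
  have hcomp : CompactSpace B := isCompact_iff_compactSpace.1 hB
  -- the continuous isomorphism
  let e : (Fin (finrank ℤ_[p] M) → ℤ_[p]) ≃+ B :=
    { toFun := fun z => ⟨(b.equivFun.symm z : M), (b.equivFun.symm z).2⟩
      invFun := fun x => b.equivFun ⟨x, x.2⟩
      left_inv := fun z => b.equivFun.apply_symm_apply z
      right_inv := fun x => by
        have := b.equivFun.symm_apply_apply (⟨x, x.2⟩ : M)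
        exact Subtype.ext (congrArg (fun y : M => (y : Fin n → ℚ_[p])) this)
      map_add' := fun x y => by
        apply Subtype.ext
        rw [map_add]
        rfl }
  have hcont : Continuous e := by
    refine Continuous.subtype_mk ?_ _
    have h5 : (fun z : Fin (finrank ℤ_[p] M) → ℤ_[p] => ((b.equivFun.symm z : M) : Fin n → ℚ_[p])) =
        fun z => ∑ i, (z i : ℚ_[p]) • ((b i : M) : Fin n → ℚ_[p]) := by
      funext z
      rw [Basis.equivFun_symm_apply]
      simp only [Submodule.coe_sum, Submodule.coe_smul]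
      rfl
    rw [h5]
    refine continuous_finsetSum _ fun i _ => ?_
    have h6 : Continuous fun z : Fin (finrank ℤ_[p] M) → ℤ_[p] => ((z i : ℤ_[p]) : ℚ_[p]) :=
      Continuous.comp (g := fun x : ℤ_[p] => (x : ℚ_[p])) continuous_subtype_val (continuous_apply i)
    exact h6.smul continuous_const
  let h : (Fin (finrank ℤ_[p] M) → ℤ_[p]) ≃ₜ B := Continuous.homeoOfEquivCompactToT2 (f := e.toEquiv) hcont
  exact ⟨{ e.symm with
    continuous_toFun := h.symm.continuous
    continuous_invFun := h.continuous }⟩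

end Lattice

/-- The `p`-adic points and the logarithm: a compact abelian group with a continuous homomorphism to `ℚ_p ^ n` which is injective
on an open subgroup. -/
structure IsLog {n : ℕ} {G : Type} [AddCommGroup G] [TopologicalSpace G] (log : G →+ (Fin n → ℚ_[p])) : Prop where
  cont : Continuous log
  inj : ∃ U : AddSubgroup G, IsOpen (U : Set G) ∧ Set.InjOn log U

section Group

set_option linter.unusedSectionVars false

variable {n : ℕ} {G : Type} [AddCommGroup G] [TopologicalSpace G] [IsTopologicalAddGroup G] [CompactSpace G] [T2Space G]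
  {log : G →+ (Fin n → ℚ_[p])}

lemma index_ne_zero (U : AddSubgroup G) (hU : IsOpen (U : Set G)) : U.index ≠ 0 := by
  have : Finite (G ⧸ U) := AddSubgroup.quotient_finite_of_isOpen U hU
  exact AddSubgroup.index_ne_zero_of_finite

/-- the `ℚ_p`-span of the logarithms of a subgroup -/
noncomputable def lspan (log : G →+ (Fin n → ℚ_[p])) (S : AddSubgroup G) : Submodule ℚ_[p] (Fin n → ℚ_[p]) :=
  qspan (S.map log)

lemma lspan_mono {S T : AddSubgroup G} (h : S ≤ T) : lspan log S ≤ lspan log T :=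
  Submodule.span_mono (AddSubgroup.map_mono h)

lemma lspan_closure (hlog : IsLog log) (S : AddSubgroup G) : lspan log S.topologicalClosure = lspan log S := by
  apply le_antisymm _ (lspan_mono S.le_topologicalClosure)
  unfold lspan qspan
  rw [Submodule.span_le]
  rintro _ ⟨x, hx, rfl⟩
  have hcl : IsClosed ((Submodule.span ℚ_[p] ((S.map log : AddSubgroup (Fin n → ℚ_[p])) : Set (Fin n → ℚ_[p]))) : Set (Fin n → ℚ_[p])) :=
    Submodule.closed_of_finiteDimensional _
  have h1 : IsClosed (log ⁻¹' ((Submodule.span ℚ_[p] ((S.map log : AddSubgroup (Fin n → ℚ_[p])) : Set (Fin n → ℚ_[p]))) : Set (Fin n → ℚ_[p]))) :=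
    hcl.preimage hlog.cont
  have h2 : (S : Set G) ⊆ (log ⁻¹' ((Submodule.span ℚ_[p] ((S.map log : AddSubgroup (Fin n → ℚ_[p])) : Set (Fin n → ℚ_[p]))) : Set (Fin n → ℚ_[p]))) := by
    intro y hy
    exact Submodule.subset_span ⟨y, hy, rfl⟩
  exact closure_minimal h2 h1 hx

/-- intersecting with an open subgroup does not change the span -/
lemma lspan_inf (S U : AddSubgroup G) (hU : U.index ≠ 0) : lspan log (S ⊓ U) = lspan log S := by
  apply le_antisymm (lspan_mono inf_le_left)
  unfold lspan qspan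
  rw [Submodule.span_le]
  rintro _ ⟨x, hx, rfl⟩
  have h1 : U.index • x ∈ U := U.nsmul_index_mem x
  have h2 : ((U.index : ℕ) : ℚ_[p]) ≠ 0 := by exact_mod_cast hU
  have h3 : log x = ((U.index : ℕ) : ℚ_[p])⁻¹ • log (U.index • x) := by
    rw [map_nsmul, ← Nat.cast_smul_eq_nsmul ℚ_[p], smul_smul, inv_mul_cancel₀ h2, one_smul]
  rw [h3]
  exact Submodule.smul_mem _ _ (Submodule.subset_span ⟨_, ⟨S.nsmul_mem hx _, h1⟩, rfl⟩)

/-- **The `ℤ_p`-rank of the closure of a subgroup is the dimension of the span of the logarithms.** -/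
theorem closure_rank (hlog : IsLog log) (S : AddSubgroup G) :
    HasZpRank p S.topologicalClosure (finrank ℚ_[p] (lspan log S)) := by
  obtain ⟨U, hU, hinj⟩ := hlog.inj
  have hUi := index_ne_zero U hU
  set C := S.topologicalClosure with hC
  have hUcl : IsClosed (U : Set G) := AddSubgroup.isClosed_of_isOpen U hU
  have hCcl : IsClosed (C : Set G) := S.isClosed_topologicalClosure
  set V := C ⊓ U with hV
  have hVc : IsCompact (V : Set G) := by
    have : (V : Set G) = (C : Set G) ∩ (U : Set G) := rfl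
    rw [this]
    exact (hCcl.inter hUcl).isCompact
  have hspan : qspan (V.map log) = lspan log S := by
    rw [← lspan_closure hlog S]
    exact lspan_inf C U hUi
  have hB : IsCompact ((V.map log : AddSubgroup (Fin n → ℚ_[p])) : Set (Fin n → ℚ_[p])) := by
    rw [AddSubgroup.coe_map]
    exact hVc.image hlog.cont
  obtain ⟨φ⟩ := lattice (V.map log) hB
  rw [hspan] at φ
  have hcomp : CompactSpace V := isCompact_iff_compactSpace.1 hVc
  -- the isomorphism of `V` with its image
  let f : V →+ (V.map log : AddSubgroup (Fin n → ℚ_[p])) :=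
    { toFun := fun x => ⟨log x, ⟨x, x.2, rfl⟩⟩
      map_zero' := by simp
      map_add' := fun x y => by
        apply Subtype.ext
        simp }
  have hf : Function.Bijective f := by
    constructor
    · intro x y hxy
      have h1 : log (x : G) = log (y : G) := congrArg (fun z : (V.map log : AddSubgroup (Fin n → ℚ_[p])) => (z : Fin n → ℚ_[p])) hxy
      exact Subtype.ext (hinj x.2.2 y.2.2 h1)
    · rintro ⟨_, x, hx, rfl⟩
      exact ⟨⟨x, hx⟩, rfl⟩
  let e : V ≃+ (V.map log : AddSubgroup (Fin n → ℚ_[p])) := AddEquiv.ofBijective f hf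
  have hcont : Continuous e := by
    refine Continuous.subtype_mk ?_ _
    exact hlog.cont.comp continuous_subtype_val
  let h : V ≃ₜ (V.map log : AddSubgroup (Fin n → ℚ_[p])) := Continuous.homeoOfEquivCompactToT2 (f := e.toEquiv) hcont
  let e' : V ≃ₜ+ (V.map log : AddSubgroup (Fin n → ℚ_[p])) :=
    { e with
      continuous_toFun := h.continuous
      continuous_invFun := h.symm.continuous }
  refine ⟨V, inf_le_left, ?_, ?_, ⟨e'.trans φ⟩⟩
  · rw [hV, AddSubgroup.inf_relIndex_left]
    exact fun h0 => hUi (AddSubgroup.index_eq_zero_of_relIndex_eq_zero h0)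
  · have : {x : C | (x : G) ∈ V} = (Subtype.val : C → G) ⁻¹' (U : Set G) := by
      ext x
      exact ⟨fun h => h.2, fun h => ⟨x.2, h⟩⟩
    rw [this]
    exact hU.preimage continuous_subtype_val

end Group

end Pool.Agent.Q315.PA
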